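import Pool.Agent.H40.EGD.Targets
import Pool.Agent.H93.BL.Basic

/-!
# Module DET: Q1 from the rigidity theorem
-/

namespace Pool.Agent.H87.EGD

open MeasureTheory Set Metric Filter Topology Pool.Agent.H93.BL Pool.Agent.H40.EGD

theorem DET (hRIG : T_RIG) (hDIR : T_DIR) (hHLG : T_HLG) : T_DET := by
  intro ι _ P E hE X hX hinv hfull i
  obtain ⟨W, -, hWinv, hW⟩ := hRIG ι P X hX hinv
  obtain ⟨e, he⟩ := hE
  have h1 : ∀ᵐ z ∂(P.liouville e), z ∈ X e := by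
    rw [ae_iff]; exact hfull e he
  have h2 : ∀ᵐ z ∂(P.liouville e), P.dir (e, z) ∈ W := by
    filter_upwards [h1, hW e] with z hz hz'
    exact hz'.1 hz
  have h3 := (hDIR ι P e W).1.1 h2
  have h4 : ∀ᵐ θ : ℝ, Complex.exp ((θ : ℂ) * Complex.I) ∈ W :=
    hHLG (P.u e) W (P.norm_u e) h3 (hWinv e)
  have h5 := (hDIR ι P i W).2 h4
  have h6 : ∀ᵐ z ∂(P.liouville i), z ∈ X i := by
    filter_upwards [h5, hW i] with z hz hz'
    exact hz'.2 hz
  rw [ae_iff] at h6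
  exact h6

end Pool.Agent.H87.EGD
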